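import Mathlib

/-!
# Mixtures of periodic orbits under the XOR cellular automaton

The measures are mixtures of uniform distributions on orbits of points that are supported on
`2 ^ j ℤ`. The word `1 0 ^ (2 ^ j - 1) 1 0 ^ (2 ^ (j + 1) - 1) 1` occurs in the `n`-th image of the
`j'`-th point only if `j = j'` and `2 ^ j` divides `n`.
-/

set_option autoImplicit false

open MeasureTheory Filter Topology

open scoped ENNReal

namespace Pool.Agent.V11233.XorCA

/-! ## Definitions -/

/-- The configurations. -/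
abbrev Cfg : Type := ℤ → Bool

/-- The XOR cellular automaton. -/
def F (x : Cfg) : Cfg := fun i => xor (x i) (x (i + 1))

/-- The shift. -/
def shift (x : Cfg) : Cfg := fun i => x (i + 1)

/-- The cylinder set of a word. -/
def cyl (w : List Bool) : Set Cfg := {x | ∀ (j : ℕ) (h : j < w.length), x j = w[j]}

/-- The measure `ν` is computable: there is an algorithm that computes from a word `w` and a natural
number `k` two natural numbers `p` and `q` such that `p / (q + 1)` is within `2 ^ (-k)` of the measure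
of the cylinder set of `w`. -/
def ComputableMeasure (ν : Measure Cfg) : Prop :=
  ∃ f : List Bool × ℕ → ℕ × ℕ, Computable f ∧ ∀ w k,
    |(ν (cyl w)).toReal - ((f (w, k)).1 : ℝ) / (((f (w, k)).2 : ℝ) + 1)| ≤ (1 / 2) ^ k

/-- The language of the words whose probability does not tend to zero. -/
def limitLang (μ : Measure Cfg) : Set (List Bool) :=
  {w | ¬ Tendsto (fun n : ℕ => (μ.map (F^[n])) (cyl w)) atTop (𝓝 0)}

/-! ## Combinatorics -/

/-- The shift by `k`. -/
def sh (k : ℤ) (x : Cfg) : Cfg := fun i => x (i + k)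

/-- Spread a configuration by the factor two. -/
def S (x : Cfg) : Cfg := fun i => if i % 2 = 0 then x (i / 2) else false

theorem sh_sh (k l : ℤ) (x : Cfg) : sh k (sh l x) = sh (k + l) x := by
  funext i
  simp only [sh]
  congr 1
  ring

theorem sh_zero (x : Cfg) : sh 0 x = x := by
  funext i
  simp [sh]

theorem F_sh (k : ℤ) (x : Cfg) : F (sh k x) = sh k (F x) := by
  funext i
  simp only [F, sh]
  congr 2
  ring

theorem iter_sh (n : ℕ) (k : ℤ) (x : Cfg) : F^[n] (sh k x) = sh k (F^[n] x) := by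
  induction n generalizing x with
  | zero => rfl
  | succ n ih => rw [Function.iterate_succ_apply, Function.iterate_succ_apply, F_sh, ih]

theorem S_even (x : Cfg) (i : ℤ) : S x (2 * i) = x i := by
  simp [S]

theorem S_odd (x : Cfg) (i : ℤ) : S x (2 * i + 1) = false := by
  have : (2 * i + 1) % 2 ≠ 0 := by omega
  unfold S
  rw [if_neg this]

theorem S_sh (k : ℤ) (x : Cfg) : S (sh k x) = sh (2 * k) (S x) := by
  funext i
  rcases Int.even_or_odd' i with ⟨j, rfl | rfl⟩
  · rw [S_even]
    simp only [sh]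
    rw [show 2 * j + 2 * k = 2 * (j + k) by ring, S_even]
  · rw [S_odd]
    simp only [sh]
    rw [show 2 * j + 1 + 2 * k = 2 * (j + k) + 1 by ring, S_odd]

theorem F_F_S (x : Cfg) : F (F (S x)) = S (F x) := by
  funext i
  rcases Int.even_or_odd' i with ⟨j, rfl | rfl⟩
  · rw [S_even]
    simp only [F]
    rw [show 2 * j + 1 + 1 = 2 * (j + 1) by ring, S_even, S_odd, S_even]
    simp
  · rw [S_odd]
    simp only [F]
    rw [show 2 * j + 1 + 1 = 2 * (j + 1) by ring, S_odd, S_even, S_odd]
    simp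

theorem iter_S_even (m : ℕ) (x : Cfg) : F^[2 * m] (S x) = S (F^[m] x) := by
  induction m generalizing x with
  | zero => rfl
  | succ m ih =>
    rw [show 2 * (m + 1) = 2 * m + 1 + 1 by ring, Function.iterate_succ_apply,
      Function.iterate_succ_apply, F_F_S, ih, Function.iterate_succ_apply]

theorem iter_S_odd (m : ℕ) (x : Cfg) : F^[2 * m + 1] (S x) = F (S (F^[m] x)) := by
  rw [Function.iterate_succ_apply', iter_S_even]

/-- The points: the first one is the periodic sequence `…110110…`, and the others are obtained by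
spreading. -/
def X : ℕ → Cfg
  | 0 => fun i => decide (i % 3 ≠ 2)
  | j + 1 => S (X j)

theorem F_X_zero : F (X 0) = sh 2 (X 0) := by
  funext i
  simp only [F, X, sh]
  have h : i % 3 = 0 ∨ i % 3 = 1 ∨ i % 3 = 2 := by omega
  rcases h with h | h | h
  · rw [decide_eq_true (by omega), decide_eq_true (by omega), decide_eq_false (by omega)]
    rfl
  · rw [decide_eq_true (by omega), decide_eq_false (by omega), decide_eq_true (by omega)]
    rfl
  · rw [decide_eq_false (by omega), decide_eq_true (by omega), decide_eq_true (by omega)]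
    rfl

theorem iter_X_zero (n : ℕ) : F^[n] (X 0) = sh (2 * n) (X 0) := by
  induction n with
  | zero => simp [sh_zero]
  | succ n ih =>
    rw [Function.iterate_succ_apply', ih, F_sh, F_X_zero, sh_sh]
    refine congrArg (fun k => sh k (X 0)) ?_
    push_cast
    ring

/-- The structure of the images. -/
theorem iter_X (j n : ℕ) : (2 ^ j ∣ n ∧ ∃ k, F^[n] (X j) = sh k (X j)) ∨
    (¬ 2 ^ j ∣ n ∧ ∃ i z, F^[n] (X j) = S^[i] (F (S z))) := by
  induction j generalizing n with
  | zero => exact Or.inl ⟨by simp, _, iter_X_zero n⟩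
  | succ j ih =>
    rcases Nat.even_or_odd' n with ⟨m, rfl | rfl⟩
    · rcases ih m with ⟨h1, k, h2⟩ | ⟨h1, i, z, h2⟩
      · left
        refine ⟨by rw [pow_succ, mul_comm]; exact Nat.mul_dvd_mul_left 2 h1, 2 * k, ?_⟩
        rw [X, iter_S_even, h2, S_sh]
      · right
        refine ⟨fun h => h1 ?_, i + 1, z, ?_⟩
        · rw [pow_succ, mul_comm] at h
          exact Nat.dvd_of_mul_dvd_mul_left (by norm_num) h
        · rw [X, iter_S_even, h2, Function.iterate_succ_apply']
    · right
      refine ⟨fun h => ?_, 0, F^[m] (X j), ?_⟩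
      · have h2 : 2 ∣ 2 * m + 1 := dvd_trans ⟨2 ^ j, by ring⟩ h
        omega
      · rw [X, iter_S_odd]
        rfl

theorem sh_X (j : ℕ) : sh (3 * 2 ^ j) (X j) = X j := by
  induction j with
  | zero =>
    funext i
    simp only [sh, X]
    congr 1
    apply propext
    constructor <;> intro h <;> omega
  | succ j ih =>
    rw [X, show (3 * 2 ^ (j + 1) : ℤ) = 2 * (3 * 2 ^ j) by ring, ← S_sh, ih]

/-- The word `1 0 ^ (2 ^ j - 1) 1 0 ^ (2 ^ (j + 1) - 1) 1` occurs in `x` at the position `p`. -/
def Occ (j : ℕ) (x : Cfg) (p : ℤ) : Prop :=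
  ∀ i : ℕ, i ≤ 3 * 2 ^ j → x (p + i) = (i == 0 || i == 2 ^ j || i == 3 * 2 ^ j)

theorem Occ.sh {j : ℕ} {x : Cfg} {p k : ℤ} : Occ j (sh k x) p ↔ Occ j x (p + k) := by
  unfold Occ
  refine forall_congr' fun i => imp_congr Iff.rfl ?_
  simp only [XorCA.sh]
  rw [show p + (i : ℤ) + k = p + k + i by ring]

theorem occ_S_succ {j : ℕ} {x : Cfg} {p : ℤ} (h : Occ (j + 1) (S x) p) : Occ j x (p / 2) := by
  have h0 := h 0 (Nat.zero_le _)
  rcases Int.even_or_odd' p with ⟨q, rfl | rfl⟩
  · intro i hi
    have h1 := h (2 * i) (by rw [pow_succ]; omega)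
    rw [show (2 * q : ℤ) + ((2 * i : ℕ) : ℤ) = 2 * (q + i) by push_cast; ring, S_even] at h1
    rw [show (2 * q : ℤ) / 2 = q by omega, h1]
    have e1 : (2 * i == 0) = (i == 0) := by
      rw [Bool.eq_iff_iff]
      simp
    have e2 : (2 * i == 2 ^ (j + 1)) = (i == 2 ^ j) := by
      rw [Bool.eq_iff_iff, beq_iff_eq, beq_iff_eq, pow_succ]
      omega
    have e3 : (2 * i == 3 * 2 ^ (j + 1)) = (i == 3 * 2 ^ j) := by
      rw [Bool.eq_iff_iff, beq_iff_eq, beq_iff_eq, pow_succ]
      omega
    rw [e1, e2, e3]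
  · exfalso
    rw [show (2 * q + 1 : ℤ) + ((0 : ℕ) : ℤ) = 2 * q + 1 by simp, S_odd] at h0
    simp at h0

theorem not_occ_zero_S {x : Cfg} {p : ℤ} (h : Occ 0 (S x) p) : False := by
  have h0 := h 0 (by norm_num)
  have h1 := h 1 (by norm_num)
  rcases Int.even_or_odd' p with ⟨q, rfl | rfl⟩
  · rw [show (2 * q : ℤ) + ((1 : ℕ) : ℤ) = 2 * q + 1 by simp, S_odd] at h1
    simp at h1
  · rw [show (2 * q + 1 : ℤ) + ((0 : ℕ) : ℤ) = 2 * q + 1 by simp, S_odd] at h0
    simp at h0

theorem F_S_pair (z : Cfg) (t : ℤ) : F (S z) (2 * t + 1) = F (S z) (2 * t + 2) := by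
  simp only [F]
  rw [show 2 * t + 1 + 1 = 2 * (t + 1) by ring, show 2 * t + 2 = 2 * (t + 1) by ring, S_odd, S_even,
    S_odd]
  simp

theorem not_occ_F_S {j : ℕ} {z : Cfg} {p : ℤ} (h : Occ j (F (S z)) p) : False := by
  rcases j with _ | j
  · have h0 := h 0 (by norm_num)
    have h1 := h 1 (by norm_num)
    have h2 := h 2 (by norm_num)
    have h3 := h 3 (by norm_num)
    simp only [pow_zero, mul_one] at h0 h1 h2 h3
    rcases Int.even_or_odd' p with ⟨q, rfl | rfl⟩
    · have h4 := F_S_pair z q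
      rw [show (2 * q : ℤ) + ((1 : ℕ) : ℤ) = 2 * q + 1 by simp] at h1
      rw [show (2 * q : ℤ) + ((2 : ℕ) : ℤ) = 2 * q + 2 by simp] at h2
      rw [h1, h2] at h4
      simp at h4
    · have h4 := F_S_pair z (q + 1)
      rw [show (2 * q + 1 : ℤ) + ((2 : ℕ) : ℤ) = 2 * (q + 1) + 1 by push_cast; ring] at h2
      rw [show (2 * q + 1 : ℤ) + ((3 : ℕ) : ℤ) = 2 * (q + 1) + 2 by push_cast; ring] at h3
      rw [h2, h3] at h4
      simp at h4
  · have hpos : 0 < 2 ^ j := by positivity
    have e : 2 ^ (j + 1) = 2 * 2 ^ j := by rw [pow_succ]; ring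
    have h0 := h (2 ^ (j + 1)) (by omega)
    have h1 := h (2 ^ (j + 1) - 1) (by omega)
    have h2 := h (2 ^ (j + 1) + 1) (by omega)
    have v0 : (2 ^ (j + 1) == 0 || 2 ^ (j + 1) == 2 ^ (j + 1) || 2 ^ (j + 1) == 3 * 2 ^ (j + 1)) =
        true := by simp
    have v1 : (2 ^ (j + 1) - 1 == 0 || 2 ^ (j + 1) - 1 == 2 ^ (j + 1) ||
        2 ^ (j + 1) - 1 == 3 * 2 ^ (j + 1)) = false := by
      simp only [Bool.or_eq_false_iff, beq_eq_false_iff_ne]
      omega
    have v2 : (2 ^ (j + 1) + 1 == 0 || 2 ^ (j + 1) + 1 == 2 ^ (j + 1) ||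
        2 ^ (j + 1) + 1 == 3 * 2 ^ (j + 1)) = false := by
      simp only [Bool.or_eq_false_iff, beq_eq_false_iff_ne]
      omega
    rw [v0] at h0
    rw [v1] at h1
    rw [v2] at h2
    have e1 : ((2 ^ (j + 1) - 1 : ℕ) : ℤ) = ((2 ^ (j + 1) : ℕ) : ℤ) - 1 := by
      rw [Nat.cast_sub (by omega)]
      simp
    have e2 : ((2 ^ (j + 1) + 1 : ℕ) : ℤ) = ((2 ^ (j + 1) : ℕ) : ℤ) + 1 := by push_cast; ring
    rw [e1] at h1
    rw [e2] at h2
    generalize ((2 ^ (j + 1) : ℕ) : ℤ) = a at h0 h1 h2
    rcases Int.even_or_odd' (p + a) with ⟨q, hq | hq⟩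
    · have h4 := F_S_pair z (q - 1)
      rw [show 2 * (q - 1) + 1 = p + (a - 1) by omega, show 2 * (q - 1) + 2 = p + a by omega, h0,
        h1] at h4
      exact absurd h4 (by decide)
    · have h4 := F_S_pair z q
      rw [show 2 * q + 1 = p + a by omega, show 2 * q + 2 = p + (a + 1) by omega, h0, h2] at h4
      exact absurd h4 (by decide)

theorem not_occ_iter {i j : ℕ} {z : Cfg} {p : ℤ} (h : Occ j (S^[i] (F (S z))) p) : False := by
  induction i generalizing j p with
  | zero => exact not_occ_F_S h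
  | succ i ih =>
    rw [Function.iterate_succ_apply'] at h
    rcases j with _ | j
    · exact not_occ_zero_S h
    · exact ih (occ_S_succ h)

theorem occ_X {j j' : ℕ} {p : ℤ} (h : Occ j (X j') p) : j = j' := by
  induction j' generalizing j p with
  | zero =>
    by_contra hj
    obtain ⟨i, rfl⟩ : ∃ i, j = i + 1 := ⟨j - 1, by omega⟩
    have hpos : 0 < 2 ^ i := by positivity
    have e : 2 ^ (i + 1) = 2 * 2 ^ i := by rw [pow_succ]; ring
    have h1 := h (2 ^ (i + 1) + 1) (by omega)
    have h2 := h (2 ^ (i + 1) + 2) (by omega)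
    have v1 : (2 ^ (i + 1) + 1 == 0 || 2 ^ (i + 1) + 1 == 2 ^ (i + 1) ||
        2 ^ (i + 1) + 1 == 3 * 2 ^ (i + 1)) = false := by
      simp only [Bool.or_eq_false_iff, beq_eq_false_iff_ne]
      omega
    have v2 : (2 ^ (i + 1) + 2 == 0 || 2 ^ (i + 1) + 2 == 2 ^ (i + 1) ||
        2 ^ (i + 1) + 2 == 3 * 2 ^ (i + 1)) = false := by
      simp only [Bool.or_eq_false_iff, beq_eq_false_iff_ne]
      omega
    rw [v1] at h1
    rw [v2] at h2
    simp only [X, decide_eq_false_iff_not, not_not] at h1 h2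
    omega
  | succ j' ih =>
    rw [X] at h
    rcases j with _ | j
    · exact (not_occ_zero_S h).elim
    · rw [ih (occ_S_succ h)]

theorem occ_iter_X {j j' n : ℕ} {p : ℤ} (h : Occ j (F^[n] (X j')) p) : j = j' ∧ 2 ^ j ∣ n := by
  rcases iter_X j' n with ⟨h1, k, h2⟩ | ⟨-, i, z, h2⟩
  · rw [h2, Occ.sh] at h
    have := occ_X h
    subst this
    exact ⟨rfl, h1⟩
  · rw [h2] at h
    exact (not_occ_iter h).elim

theorem occ_X_self (j : ℕ) : Occ j (X j) 0 := by
  induction j with
  | zero =>
    intro i hi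
    simp only [pow_zero, mul_one] at hi
    interval_cases i <;> rfl
  | succ j ih =>
    intro i hi
    rw [X]
    rcases Nat.even_or_odd' i with ⟨i', rfl | rfl⟩
    · rw [show (0 : ℤ) + ((2 * i' : ℕ) : ℤ) = 2 * (0 + i') by push_cast; ring, S_even,
        ih i' (by rw [pow_succ] at hi; omega)]
      have e1 : (2 * i' == 0) = (i' == 0) := by
        rw [Bool.eq_iff_iff]
        simp
      have e2 : (2 * i' == 2 ^ (j + 1)) = (i' == 2 ^ j) := by
        rw [Bool.eq_iff_iff, beq_iff_eq, beq_iff_eq, pow_succ]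
        omega
      have e3 : (2 * i' == 3 * 2 ^ (j + 1)) = (i' == 3 * 2 ^ j) := by
        rw [Bool.eq_iff_iff, beq_iff_eq, beq_iff_eq, pow_succ]
        omega
      rw [e1, e2, e3]
    · rw [show (0 : ℤ) + ((2 * i' + 1 : ℕ) : ℤ) = 2 * i' + 1 by push_cast; ring, S_odd]
      symm
      simp only [Bool.or_eq_false_iff, beq_eq_false_iff_ne, pow_succ]
      omega

theorem exists_occ {j n : ℕ} (h : 2 ^ j ∣ n) : ∃ p, Occ j (F^[n] (X j)) p := by
  rcases iter_X j n with ⟨-, k, h2⟩ | ⟨h1, -⟩
  · exact ⟨-k, by rw [h2, Occ.sh, neg_add_cancel]; exact occ_X_self j⟩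
  · exact absurd h h1

theorem sh_mul {p : ℤ} {x : Cfg} (h : sh p x = x) (k : ℤ) : sh (p * k) x = x := by
  have hn : ∀ n : ℕ, sh (p * n) x = x := by
    intro n
    induction n with
    | zero => simp [sh_zero]
    | succ n ih =>
      rw [Nat.cast_succ, mul_add, mul_one, ← sh_sh, h, ih]
  rcases Int.eq_nat_or_neg k with ⟨n, rfl | rfl⟩
  · exact hn n
  · conv_lhs => rw [← hn n]
    rw [sh_sh, show p * -(n : ℤ) + p * n = 0 by ring, sh_zero]

/-- The word. -/
def wd (j : ℕ) : List Bool :=
  (List.range (3 * 2 ^ j + 1)).map fun i => (i == 0 || i == 2 ^ j || i == 3 * 2 ^ j)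

theorem mem_cyl_wd (j : ℕ) (x : Cfg) : x ∈ cyl (wd j) ↔ Occ j x 0 := by
  constructor
  · intro h i hi
    have h1 := h i (by simp [wd]; omega)
    rw [zero_add, h1]
    simp [wd]
  · intro h i hi
    have hi' : i ≤ 3 * 2 ^ j := by
      simp [wd] at hi
      omega
    have h1 := h i hi'
    rw [zero_add] at h1
    rw [h1]
    simp [wd]

/-! ## Measures -/

theorem measurable_F : Measurable F := by
  rw [measurable_pi_iff]
  intro i
  have h : Measurable (fun x : Cfg => (x i, x (i + 1))) :=
    (measurable_pi_apply i).prodMk (measurable_pi_apply (i + 1))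
  exact (measurable_of_countable (fun p : Bool × Bool => xor p.1 p.2)).comp h

theorem measurable_shift : Measurable shift := by
  rw [measurable_pi_iff]
  intro i
  exact measurable_pi_apply (i + 1)

theorem measurable_iter (n : ℕ) : Measurable (F^[n]) := measurable_F.iterate n

theorem measurableSet_cyl (w : List Bool) : MeasurableSet (cyl w) := by
  have : cyl w = ⋂ (j : ℕ) (h : j < w.length), (fun x : Cfg => x j) ⁻¹' {w[j]} := by
    ext x
    simp [cyl]
  rw [this]
  exact MeasurableSet.iInter fun j => MeasurableSet.iInter fun h =>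
    measurable_pi_apply _ (measurableSet_singleton _)

/-- The uniform distribution on the first `p` points of the orbit of `x`. -/
noncomputable def orb (p : ℕ) (x : Cfg) : Measure Cfg :=
  (p : ℝ≥0∞)⁻¹ • ∑ s ∈ Finset.range p, Measure.dirac (sh s x)

theorem orb_apply (p : ℕ) (x : Cfg) (A : Set Cfg) (hA : MeasurableSet A) :
    orb p x A = (p : ℝ≥0∞)⁻¹ * ∑ s ∈ Finset.range p, A.indicator 1 (sh s x) := by
  rw [orb, Measure.smul_apply, Measure.finsetSum_apply, smul_eq_mul]
  congr 1
  exact Finset.sum_congr rfl fun s _ => Measure.dirac_apply' _ hA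

theorem orb_univ {p : ℕ} (hp : 0 < p) (x : Cfg) : orb p x Set.univ = 1 := by
  rw [orb_apply _ _ _ MeasurableSet.univ]
  simp only [Set.indicator_univ, Pi.one_apply, Finset.sum_const, Finset.card_range, nsmul_eq_mul,
    mul_one]
  exact ENNReal.inv_mul_cancel (by exact_mod_cast hp.ne') (ENNReal.natCast_ne_top p)

theorem orb_shift {p : ℕ} {x : Cfg} (h : sh p x = x) : orb p (sh 1 x) = orb p x := by
  unfold orb
  congr 1
  have h1 : ∀ s : ℕ, sh s (sh 1 x) = sh ((s + 1 : ℕ) : ℤ) x := fun s => by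
    rw [sh_sh]
    push_cast
    rfl
  simp only [h1]
  have h2 := Finset.sum_range_succ (fun s : ℕ => (Measure.dirac (sh s x) : Measure Cfg)) p
  have h3 := Finset.sum_range_succ' (fun s : ℕ => (Measure.dirac (sh s x) : Measure Cfg)) p
  rw [h2] at h3
  rw [h, Nat.cast_zero, sh_zero] at h3
  have h4 : IsFiniteMeasure (Measure.dirac x : Measure Cfg) := inferInstance
  ext A hA
  have h5 := congrArg (fun μ : Measure Cfg => μ A) h3
  simp only [Measure.add_apply] at h5
  exact ((ENNReal.add_left_inj (measure_ne_top _ A)).1 h5).symm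

theorem orb_sh {p : ℕ} {x : Cfg} (h : sh p x = x) (k : ℕ) : orb p (sh k x) = orb p x := by
  induction k with
  | zero => rw [Nat.cast_zero, sh_zero]
  | succ k ih =>
    have h1 : sh ((k + 1 : ℕ) : ℤ) x = sh 1 (sh k x) := by
      rw [sh_sh]
      congr 1
      push_cast
      ring
    rw [h1, orb_shift, ih]
    rw [sh_sh, add_comm, ← sh_sh, h]

theorem orb_sh_int {p : ℕ} (hp : 0 < p) {x : Cfg} (h : sh p x = x) (k : ℤ) :
    orb p (sh k x) = orb p x := by
  have h1 : sh k x = sh ((k % p).toNat : ℤ) x := by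
    conv_lhs => rw [← Int.emod_add_mul_ediv k p, ← sh_sh, sh_mul h]
    rw [Int.toNat_of_nonneg (Int.emod_nonneg _ (by exact_mod_cast hp.ne'))]
  rw [h1, orb_sh h]

/-- A mixture of uniform distributions on orbits. -/
noncomputable def mix (P : ℕ → ℕ) (y : ℕ → Cfg) : Measure Cfg :=
  Measure.sum fun m => ((1 / 2 : ℝ≥0∞) ^ (m + 1)) • orb (P m) (y m)

theorem mix_apply (P : ℕ → ℕ) (y : ℕ → Cfg) (A : Set Cfg) (hA : MeasurableSet A) :
    mix P y A = ∑' m, (1 / 2 : ℝ≥0∞) ^ (m + 1) * orb (P m) (y m) A := by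
  rw [mix, Measure.sum_apply _ hA]
  rfl

theorem tsum_half : ∑' m : ℕ, (1 / 2 : ℝ≥0∞) ^ (m + 1) = 1 := by
  rw [ENNReal.tsum_geometric_add_one, one_div, ENNReal.one_sub_inv_two]
  exact ENNReal.mul_inv_cancel (by simp) (by simp)

theorem mix_univ {P : ℕ → ℕ} (hP : ∀ m, 0 < P m) (y : ℕ → Cfg) : mix P y Set.univ = 1 := by
  rw [mix_apply _ _ _ MeasurableSet.univ]
  simp only [orb_univ (hP _), mul_one]
  exact tsum_half

theorem orb_map (n p : ℕ) (x : Cfg) : (orb p x).map (F^[n]) = orb p (F^[n] x) := by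
  ext A hA
  rw [Measure.map_apply (measurable_iter n) hA, orb_apply _ _ _ (measurable_iter n hA),
    orb_apply _ _ _ hA]
  congr 1
  refine Finset.sum_congr rfl fun s _ => ?_
  rw [← iter_sh]
  rfl

theorem mix_map (n : ℕ) (P : ℕ → ℕ) (y : ℕ → Cfg) :
    (mix P y).map (F^[n]) = mix P (fun m => F^[n] (y m)) := by
  ext A hA
  rw [Measure.map_apply (measurable_iter n) hA, mix_apply _ _ _ (measurable_iter n hA),
    mix_apply _ _ _ hA]
  refine tsum_congr fun m => ?_
  rw [← orb_map, Measure.map_apply (measurable_iter n) hA]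

theorem mix_shift {P : ℕ → ℕ} {y : ℕ → Cfg} (h : ∀ m, sh (P m) (y m) = y m) :
    (mix P y).map shift = mix P y := by
  ext A hA
  rw [Measure.map_apply measurable_shift hA, mix_apply _ _ _ (measurable_shift hA),
    mix_apply _ _ _ hA]
  refine tsum_congr fun m => ?_
  have e : orb (P m) (y m) (shift ⁻¹' A) = orb (P m) (sh 1 (y m)) A := by
    rw [orb_apply _ _ _ (measurable_shift hA), orb_apply _ _ _ hA]
    congr 1
    refine Finset.sum_congr rfl fun s _ => ?_
    have : sh s (sh 1 (y m)) = shift (sh s (y m)) := by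
      funext i
      simp only [sh, shift]
      congr 1
      ring
    rw [this]
    rfl
  rw [e, orb_shift (h m)]

open Classical in
/-- The number of occurrences of a word in a period. -/
noncomputable def cnt (p : ℕ) (x : Cfg) (w : List Bool) : ℕ :=
  ((Finset.range p).filter fun s : ℕ => sh s x ∈ cyl w).card

theorem orb_cyl (p : ℕ) (x : Cfg) (w : List Bool) :
    orb p x (cyl w) = (p : ℝ≥0∞)⁻¹ * (cnt p x w : ℝ≥0∞) := by
  classical
  rw [orb_apply _ _ _ (measurableSet_cyl w)]
  congr 1
  simp only [Set.indicator_apply, Pi.one_apply]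
  rw [Finset.sum_ite, Finset.sum_const_zero, add_zero, Finset.sum_const, nsmul_eq_mul, mul_one, cnt]

theorem cnt_le (p : ℕ) (x : Cfg) (w : List Bool) : cnt p x w ≤ p := by
  classical
  exact (Finset.card_filter_le _ _).trans (by rw [Finset.card_range])

/-- The frequency of a word. -/
noncomputable def freq (p : ℕ) (x : Cfg) (w : List Bool) : ℝ := cnt p x w / p

theorem freq_nonneg (p : ℕ) (x : Cfg) (w : List Bool) : 0 ≤ freq p x w := by
  unfold freq
  positivity

theorem freq_le_one (p : ℕ) (x : Cfg) (w : List Bool) : freq p x w ≤ 1 := by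
  unfold freq
  exact div_le_one_of_le₀ (by exact_mod_cast cnt_le p x w) (Nat.cast_nonneg _)

theorem orb_cyl_toReal (p : ℕ) (x : Cfg) (w : List Bool) :
    (orb p x (cyl w)).toReal = freq p x w := by
  rw [orb_cyl, ENNReal.toReal_mul, ENNReal.toReal_inv, ENNReal.toReal_natCast,
    ENNReal.toReal_natCast, freq]
  ring

theorem mix_cyl_toReal (P : ℕ → ℕ) (hP : ∀ m, 0 < P m) (y : ℕ → Cfg) (w : List Bool) :
    (mix P y (cyl w)).toReal = ∑' m : ℕ, (1 / 2 : ℝ) ^ (m + 1) * freq (P m) (y m) w := by
  rw [mix_apply _ _ _ (measurableSet_cyl w), ENNReal.tsum_toReal_eq]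
  · refine tsum_congr fun m => ?_
    rw [ENNReal.toReal_mul, orb_cyl_toReal, ENNReal.toReal_pow]
    simp
  · intro m
    refine ENNReal.mul_ne_top (by simp) ?_
    rw [orb_cyl]
    exact ENNReal.mul_ne_top (ENNReal.inv_ne_top.2 (by exact_mod_cast (hP m).ne'))
      (ENNReal.natCast_ne_top _)

theorem summable_half : Summable fun m : ℕ => (1 / 2 : ℝ) ^ (m + 1) :=
  (summable_geometric_of_lt_one (by norm_num) (by norm_num)).comp_injective
    (add_left_injective 1)

theorem summable_mix (P : ℕ → ℕ) (y : ℕ → Cfg) (w : List Bool) :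
    Summable fun m : ℕ => (1 / 2 : ℝ) ^ (m + 1) * freq (P m) (y m) w :=
  Summable.of_nonneg_of_le (fun m => mul_nonneg (by positivity) (freq_nonneg _ _ _))
    (fun m => mul_le_of_le_one_right (by positivity) (freq_le_one _ _ _)) summable_half

theorem tail_half (k : ℕ) : ∑' m : ℕ, (1 / 2 : ℝ) ^ (m + k + 1) = (1 / 2) ^ k := by
  have h : ∀ m : ℕ, (1 / 2 : ℝ) ^ (m + k + 1) = (1 / 2) ^ m * (1 / 2) ^ (k + 1) := fun m => by
    rw [← pow_add, add_assoc]
  simp only [h]
  rw [tsum_mul_right, tsum_geometric_two, pow_succ]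
  ring

/-! ## The measures -/

/-- The exponent of the `m`-th component. -/
def ex (m : ℕ) : ℕ := m.unpair.1

/-- The period of the `m`-th component. -/
def per (m : ℕ) : ℕ := 3 * 2 ^ ex m

theorem per_pos (m : ℕ) : 0 < per m := by
  unfold per
  positivity

/-- The point of the `m`-th component. -/
def pt (h : ℕ → Bool) (m : ℕ) : Cfg := if h m = true then X (ex m) else fun _ => false

theorem sh_pt (h : ℕ → Bool) (m : ℕ) : sh (per m) (pt h m) = pt h m := by
  unfold pt
  split_ifs
  · have := sh_X (ex m)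
    rw [per]
    push_cast
    exact this
  · rfl

/-- The measure. -/
noncomputable def meas (h : ℕ → Bool) : Measure Cfg := mix per (pt h)

theorem meas_prob (h : ℕ → Bool) : IsProbabilityMeasure (meas h) := ⟨mix_univ per_pos _⟩

theorem meas_shift (h : ℕ → Bool) : (meas h).map shift = meas h := mix_shift (sh_pt h)

/-! ## Computability -/

/-- The values of the points. -/
def val (h : ℕ → Bool) (m q : ℕ) : Bool :=
  h m && ((q % 2 ^ ex m == 0) && !((q / 2 ^ ex m) % 3 == 2))

theorem X_nat (j q : ℕ) : X j (q : ℤ) = ((q % 2 ^ j == 0) && !((q / 2 ^ j) % 3 == 2)) := by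
  induction j generalizing q with
  | zero =>
    simp only [X, pow_zero, Nat.mod_one, Nat.div_one]
    rw [Bool.eq_iff_iff]
    simp
    omega
  | succ j ih =>
    rw [X]
    rcases Nat.even_or_odd' q with ⟨r, rfl | rfl⟩
    · rw [show ((2 * r : ℕ) : ℤ) = 2 * r by push_cast; ring, S_even, ih, pow_succ, mul_comm (2 ^ j),
        Nat.mul_mod_mul_left, Nat.mul_div_mul_left _ _ (by norm_num : 0 < 2)]
      congr 1
      rw [Bool.eq_iff_iff]
      simp
    · rw [show ((2 * r + 1 : ℕ) : ℤ) = 2 * r + 1 by push_cast; ring, S_odd]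
      have h1 : ((2 * r + 1) % 2 ^ (j + 1) == 0) = false := by
        rw [beq_eq_false_iff_ne]
        intro h2
        have h3 : 2 ∣ 2 * r + 1 := dvd_trans ⟨2 ^ j, by ring⟩ (Nat.dvd_of_mod_eq_zero h2)
        omega
      rw [h1]
      rfl

theorem pt_nat (h : ℕ → Bool) (m q : ℕ) : pt h m (q : ℤ) = val h m q := by
  unfold pt val
  split_ifs with hm
  · rw [X_nat, hm, Bool.true_and]
  · have : h m = false := by simpa using hm
    rw [this, Bool.false_and]

/-- The word occurs at a position. -/
def matchB (h : ℕ → Bool) (m : ℕ) (w : List Bool) (s : ℕ) : Bool :=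
  Nat.rec (motive := fun _ => Bool) true
    (fun j b => b && !(xor (w.getD j false) (val h m (s + j)))) w.length

theorem not_xor_iff (a b : Bool) : (!(xor a b)) = true ↔ a = b := by
  cases a <;> cases b <;> decide

theorem matchB_iff (h : ℕ → Bool) (m : ℕ) (w : List Bool) (s : ℕ) :
    matchB h m w s = true ↔ sh s (pt h m) ∈ cyl w := by
  have key : ∀ n, (Nat.rec (motive := fun _ => Bool) true
      (fun j b => b && !(xor (w.getD j false) (val h m (s + j)))) n) = true ↔
      ∀ j < n, w.getD j false = val h m (s + j) := by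
    intro n
    induction n with
    | zero => simp
    | succ n ih =>
      rw [Bool.and_eq_true, ih, not_xor_iff]
      constructor
      · rintro ⟨h1, h2⟩ j hj
        rcases Nat.lt_succ_iff_lt_or_eq.1 hj with h3 | rfl
        · exact h1 j h3
        · exact h2
      · intro h1
        exact ⟨fun j hj => h1 j (by omega), h1 n (by omega)⟩
  unfold matchB
  rw [key]
  refine forall_congr' fun j => forall_congr' fun hj => ?_
  rw [List.getD_eq_getElem _ _ hj, ← pt_nat]
  simp only [sh]
  rw [show ((j : ℤ) + (s : ℤ)) = ((s + j : ℕ) : ℤ) by push_cast; ring]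
  exact eq_comm

/-- The number of the occurrences in an interval. -/
def cntA (h : ℕ → Bool) (m : ℕ) (w : List Bool) (n : ℕ) : ℕ :=
  Nat.rec (motive := fun _ => ℕ) 0 (fun s c => c + (bif matchB h m w s then 1 else 0)) n

/-- The number of the occurrences in a period. -/
def cntB (h : ℕ → Bool) (m : ℕ) (w : List Bool) : ℕ := cntA h m w (per m)

theorem cntB_eq (h : ℕ → Bool) (m : ℕ) (w : List Bool) : cntB h m w = cnt (per m) (pt h m) w := by
  classical
  unfold cntB cntA cnt
  generalize per m = p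
  induction p with
  | zero => simp
  | succ p ih =>
    rw [Finset.range_add_one, Finset.filter_insert]
    by_cases hp : sh p (pt h m) ∈ cyl w
    · rw [if_pos hp, Finset.card_insert_of_notMem (by simp), ← ih]
      change _ + (bif matchB h m w p then 1 else 0) = _
      rw [(matchB_iff h m w p).2 hp]
      rfl
    · rw [if_neg hp, ← ih]
      have : matchB h m w p = false := by
        rw [← Bool.not_eq_true, matchB_iff]
        exact hp
      change _ + (bif matchB h m w p then 1 else 0) = _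
      rw [this]
      rfl

/-- The approximation. -/
def frac (h : ℕ → Bool) (w : List Bool) (k : ℕ) : ℕ × ℕ :=
  Nat.rec (motive := fun _ => ℕ × ℕ) (0, 1) (fun m r =>
    (r.1 * (2 ^ (m + 1) * per m) + cntB h m w * r.2, r.2 * (2 ^ (m + 1) * per m))) k

theorem frac_eq (h : ℕ → Bool) (w : List Bool) (k : ℕ) : 0 < (frac h w k).2 ∧
    ((frac h w k).1 : ℝ) / (frac h w k).2 =
      ∑ m ∈ Finset.range k, (1 / 2 : ℝ) ^ (m + 1) * freq (per m) (pt h m) w := by
  induction k with
  | zero => exact ⟨one_pos, by simp [frac]⟩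
  | succ k ih =>
    have hp := per_pos k
    have h1 : frac h w (k + 1) = ((frac h w k).1 * (2 ^ (k + 1) * per k) +
      cntB h k w * (frac h w k).2, (frac h w k).2 * (2 ^ (k + 1) * per k)) := rfl
    rw [h1, Finset.sum_range_succ, ← ih.2, cntB_eq, freq]
    refine ⟨by have := ih.1; positivity, ?_⟩
    have h2 : ((frac h w k).2 : ℝ) ≠ 0 := by exact_mod_cast ih.1.ne'
    have h3 : (per k : ℝ) ≠ 0 := by exact_mod_cast hp.ne'
    push_cast
    rw [one_div, inv_pow]
    field_simp

theorem primrec_pow : Primrec₂ ((· ^ ·) : ℕ → ℕ → ℕ) := Primrec₂.unpaired'.1 Nat.Primrec.pow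

theorem primrec_ex : Primrec ex := Primrec.fst.comp Primrec.unpair

theorem primrec_per : Primrec per :=
  Primrec.nat_mul.comp (Primrec.const 3) (primrec_pow.comp (Primrec.const 2) primrec_ex)

theorem computable_val {h : ℕ → Bool} (hh : Computable h) :
    Computable fun p : ℕ × ℕ => val h p.1 p.2 := by
  have h0 : Primrec fun p : ℕ × ℕ => ex p.1 := primrec_ex.comp Primrec.fst
  have h1 : Primrec fun p : ℕ × ℕ => 2 ^ ex p.1 := by
    have := primrec_pow.comp (Primrec.const 2) h0
    exact this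
  have h2a : Primrec fun p : ℕ × ℕ => p.2 % 2 ^ ex p.1 := by
    have := Primrec.nat_mod.comp Primrec.snd h1
    exact this
  have h2 : Primrec fun p : ℕ × ℕ => (p.2 % 2 ^ ex p.1 == 0) := by
    have := Primrec.beq.comp h2a (Primrec.const 0)
    exact this
  have h3a : Primrec fun p : ℕ × ℕ => p.2 / 2 ^ ex p.1 := by
    have := Primrec.nat_div.comp Primrec.snd h1
    exact this
  have h3b : Primrec fun p : ℕ × ℕ => (p.2 / 2 ^ ex p.1) % 3 := by
    have := Primrec.nat_mod.comp h3a (Primrec.const 3)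
    exact this
  have h3c : Primrec fun p : ℕ × ℕ => ((p.2 / 2 ^ ex p.1) % 3 == 2) := by
    have := Primrec.beq.comp h3b (Primrec.const 2)
    exact this
  have h3 : Primrec fun p : ℕ × ℕ => !((p.2 / 2 ^ ex p.1) % 3 == 2) := by
    have := Primrec.not.comp h3c
    exact this
  have h4 : Computable fun p : ℕ × ℕ => h p.1 := hh.comp Computable.fst
  have h5 := (Primrec.and.comp h2 h3).to_comp
  have := Primrec.and.to_comp.comp h4 h5
  exact this

theorem computable_matchB {h : ℕ → Bool} (hh : Computable h) :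
    Computable fun p : (ℕ × List Bool) × ℕ => matchB h p.1.1 p.1.2 p.2 := by
  have h1a : Computable fun q : ((ℕ × List Bool) × ℕ) × (ℕ × Bool) => q.1.1.2 :=
    Computable.snd.comp (Computable.fst.comp Computable.fst)
  have h1b : Computable fun q : ((ℕ × List Bool) × ℕ) × (ℕ × Bool) => q.2.1 :=
    Computable.fst.comp Computable.snd
  have h1 : Computable fun q : ((ℕ × List Bool) × ℕ) × (ℕ × Bool) => q.1.1.2.getD q.2.1 false := by
    have := (Primrec.list_getD false).to_comp.comp h1a h1b
    exact this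
  have h2a : Computable fun q : ((ℕ × List Bool) × ℕ) × (ℕ × Bool) => q.1.1.1 :=
    Computable.fst.comp (Computable.fst.comp Computable.fst)
  have h2c : Computable fun q : ((ℕ × List Bool) × ℕ) × (ℕ × Bool) => q.1.2 :=
    Computable.snd.comp Computable.fst
  have h2b : Computable fun q : ((ℕ × List Bool) × ℕ) × (ℕ × Bool) => q.1.2 + q.2.1 := by
    have := Primrec.nat_add.to_comp.comp h2c h1b
    exact this
  have h2 : Computable fun q : ((ℕ × List Bool) × ℕ) × (ℕ × Bool) =>
      val h q.1.1.1 (q.1.2 + q.2.1) := by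
    have := (computable_val hh).comp (Computable.pair h2a h2b)
    exact this
  have h3a : Computable fun q : ((ℕ × List Bool) × ℕ) × (ℕ × Bool) => q.2.2 :=
    Computable.snd.comp Computable.snd
  have h3b : Computable fun q : ((ℕ × List Bool) × ℕ) × (ℕ × Bool) =>
      !(xor (q.1.1.2.getD q.2.1 false) (val h q.1.1.1 (q.1.2 + q.2.1))) := by
    have := (Primrec.dom_bool₂ fun a b => !(xor a b)).to_comp.comp h1 h2
    exact this
  have h3 : Computable fun q : ((ℕ × List Bool) × ℕ) × (ℕ × Bool) =>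
      q.2.2 && !(xor (q.1.1.2.getD q.2.1 false) (val h q.1.1.1 (q.1.2 + q.2.1))) := by
    have := Primrec.and.to_comp.comp h3a h3b
    exact this
  have h4 : Computable fun p : (ℕ × List Bool) × ℕ => p.1.2.length := by
    have h4a : Computable fun p : (ℕ × List Bool) × ℕ => p.1.2 :=
      Computable.snd.comp Computable.fst
    have := Computable.list_length.comp h4a
    exact this
  have := Computable.nat_rec (f := fun p : (ℕ × List Bool) × ℕ => p.1.2.length)
    (g := fun _ => true)
    (h := fun p (q : ℕ × Bool) => q.2 && !(xor (p.1.2.getD q.1 false) (val h p.1.1 (p.2 + q.1))))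
    h4 (Computable.const true) h3
  exact this

theorem computable_cntA {h : ℕ → Bool} (hh : Computable h) :
    Computable fun p : (ℕ × List Bool) × ℕ => cntA h p.1.1 p.1.2 p.2 := by
  have a1 : Computable (fun q : ((ℕ × List Bool) × ℕ) × (ℕ × ℕ) => (q.1.1, q.2.1)) := by
    have b1 : Computable (fun q : ((ℕ × List Bool) × ℕ) × (ℕ × ℕ) => q.1.1) :=
      Computable.fst.comp Computable.fst
    have b2 : Computable (fun q : ((ℕ × List Bool) × ℕ) × (ℕ × ℕ) => q.2.1) :=
      Computable.fst.comp Computable.snd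
    have := Computable.pair b1 b2
    exact this
  have a2 : Computable (fun q : ((ℕ × List Bool) × ℕ) × (ℕ × ℕ) =>
      matchB h q.1.1.1 q.1.1.2 q.2.1) := by
    have := (computable_matchB hh).comp a1
    exact this
  have a3 : Computable (fun q : ((ℕ × List Bool) × ℕ) × (ℕ × ℕ) =>
      bif matchB h q.1.1.1 q.1.1.2 q.2.1 then 1 else 0) := by
    have := Computable.cond a2 (Computable.const 1) (Computable.const 0)
    exact this
  have a4 : Computable (fun q : ((ℕ × List Bool) × ℕ) × (ℕ × ℕ) => q.2.2) :=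
    Computable.snd.comp Computable.snd
  have a5 : Computable (fun q : ((ℕ × List Bool) × ℕ) × (ℕ × ℕ) =>
      q.2.2 + bif matchB h q.1.1.1 q.1.1.2 q.2.1 then 1 else 0) := by
    have := Primrec.nat_add.to_comp.comp a4 a3
    exact this
  have := Computable.nat_rec (f := fun p : (ℕ × List Bool) × ℕ => p.2)
    (g := fun _ => 0)
    (h := fun p (q : ℕ × ℕ) => q.2 + bif matchB h p.1.1 p.1.2 q.1 then 1 else 0)
    Computable.snd (Computable.const 0) a5
  exact this

theorem computable_cntB {h : ℕ → Bool} (hh : Computable h) :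
    Computable fun p : ℕ × List Bool => cntB h p.1 p.2 := by
  have a1 : Computable (fun p : ℕ × List Bool => per p.1) := by
    have := primrec_per.to_comp.comp (Computable.fst : Computable (@Prod.fst ℕ (List Bool)))
    exact this
  have a2 : Computable (fun p : ℕ × List Bool => (p, per p.1)) := by
    have := Computable.pair Computable.id a1
    exact this
  have := (computable_cntA hh).comp a2
  exact this

theorem computable_frac {h : ℕ → Bool} (hh : Computable h) :
    Computable fun p : List Bool × ℕ => frac h p.1 p.2 := by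
  have h0 : Computable fun m : ℕ => 2 ^ (m + 1) * per m := by
    have b1 := primrec_pow.comp (Primrec.const 2) Primrec.succ
    have := (Primrec.nat_mul.comp b1 primrec_per).to_comp
    exact this
  have h0' : Computable fun q : (List Bool × ℕ) × (ℕ × (ℕ × ℕ)) => 2 ^ (q.2.1 + 1) * per q.2.1 := by
    have b1 : Computable (fun q : (List Bool × ℕ) × (ℕ × (ℕ × ℕ)) => q.2.1) :=
      Computable.fst.comp Computable.snd
    have := h0.comp b1
    exact this
  have c1 : Computable (fun q : (List Bool × ℕ) × (ℕ × (ℕ × ℕ)) => q.2.2.1) :=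
    Computable.fst.comp (Computable.snd.comp Computable.snd)
  have c2 : Computable (fun q : (List Bool × ℕ) × (ℕ × (ℕ × ℕ)) => q.2.2.2) :=
    Computable.snd.comp (Computable.snd.comp Computable.snd)
  have c3 : Computable (fun q : (List Bool × ℕ) × (ℕ × (ℕ × ℕ)) => (q.2.1, q.1.1)) := by
    have b1 : Computable (fun q : (List Bool × ℕ) × (ℕ × (ℕ × ℕ)) => q.2.1) :=
      Computable.fst.comp Computable.snd
    have b2 : Computable (fun q : (List Bool × ℕ) × (ℕ × (ℕ × ℕ)) => q.1.1) :=
      Computable.fst.comp Computable.fst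
    have := Computable.pair b1 b2
    exact this
  have c4 : Computable (fun q : (List Bool × ℕ) × (ℕ × (ℕ × ℕ)) => cntB h q.2.1 q.1.1) := by
    have := (computable_cntB hh).comp c3
    exact this
  have h1 : Computable fun q : (List Bool × ℕ) × (ℕ × (ℕ × ℕ)) =>
      q.2.2.1 * (2 ^ (q.2.1 + 1) * per q.2.1) + cntB h q.2.1 q.1.1 * q.2.2.2 := by
    have d1 := Primrec.nat_mul.to_comp.comp c1 h0'
    have d2 := Primrec.nat_mul.to_comp.comp c4 c2
    have := Primrec.nat_add.to_comp.comp d1 d2
    exact this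
  have h2 : Computable fun q : (List Bool × ℕ) × (ℕ × (ℕ × ℕ)) =>
      q.2.2.2 * (2 ^ (q.2.1 + 1) * per q.2.1) := by
    have := Primrec.nat_mul.to_comp.comp c2 h0'
    exact this
  have h3 := Computable.pair h1 h2
  have := Computable.nat_rec (f := fun p : List Bool × ℕ => p.2) (g := fun _ => ((0, 1) : ℕ × ℕ))
    (h := fun p (q : ℕ × (ℕ × ℕ)) => (q.2.1 * (2 ^ (q.1 + 1) * per q.1) + cntB h q.1 p.1 * q.2.2,
      q.2.2 * (2 ^ (q.1 + 1) * per q.1)))
    Computable.snd (Computable.const _) h3
  exact this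

theorem meas_computable {h : ℕ → Bool} (hh : Computable h) : ComputableMeasure (meas h) := by
  refine ⟨fun p => ((frac h p.1 p.2).1, (frac h p.1 p.2).2 - 1), ?_, fun w k => ?_⟩
  · exact Computable.pair (Computable.fst.comp (computable_frac hh))
      (Computable.pred.comp (Computable.snd.comp (computable_frac hh)))
  · obtain ⟨h1, h2⟩ := frac_eq h w k
    dsimp only
    have h3 : (((frac h w k).2 - 1 : ℕ) : ℝ) + 1 = (frac h w k).2 := by
      rw [Nat.cast_sub (by omega)]
      push_cast
      ring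
    rw [h3, h2, meas, mix_cyl_toReal _ per_pos]
    have hs := summable_mix per (pt h) w
    rw [← hs.sum_add_tsum_nat_add k, add_sub_cancel_left]
    have h4 : Summable fun m : ℕ => (1 / 2 : ℝ) ^ (m + k + 1) * freq (per (m + k)) (pt h (m + k)) w :=
      (summable_nat_add_iff k).2 hs
    have h5 : Summable fun m : ℕ => (1 / 2 : ℝ) ^ (m + k + 1) :=
      (summable_nat_add_iff k).2 summable_half
    rw [abs_of_nonneg (tsum_nonneg fun m => mul_nonneg (by positivity) (freq_nonneg _ _ _)),
      ← tail_half k]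
    exact h4.tsum_le_tsum (fun m => mul_le_of_le_one_right (by positivity) (freq_le_one _ _ _)) h5

end Pool.Agent.V11233.XorCA
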